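import Pool.Agent.W982.AT.Defs

/-!
# Alon–Tarsi number: bad orientations cancel (task AT-B1, helper193)
-/

namespace Pool.Agent.W982.AT

namespace B1

variable {Col Row Dir Cp : Type} [DecidableEq Cp]

/-- exchange of the two forms of a coupler -/
def pe (c : Cp) : Et Col Row Dir Cp → Et Col Row Dir Cp
  | .mid c' f => if c' = c then .mid c' (!f) else .mid c' f
  | .out c' f h t => if c' = c then .out c' (!f) (xor h t) t else .out c' f h t
  | .k i j => .k i j
  | .col x => .col x
  | .row r a => .row r a
  | .dir d => .dir d

/-- correction of the middle edges -/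
def ta (c : Cp) (o : Et Col Row Dir Cp → Bool) : Et Col Row Dir Cp → Bool
  | .mid c' f => if c' = c then typ o c (!f) else false
  | _ => false

/-- the new orientation -/
def sw (c : Cp) (o : Et Col Row Dir Cp → Bool) : Et Col Row Dir Cp → Bool :=
  fun e => xor (o (pe c e)) (ta c o e)

theorem pe_pe (c : Cp) (e : Et Col Row Dir Cp) : pe c (pe c e) = e := by
  rcases e with _ | _ | _ | _ | ⟨c', f⟩ | ⟨c', f, h, t⟩ <;> try rfl
  · by_cases h : c' = c <;> simp [pe, h]
  · by_cases h' : c' = c
    · subst h'
      cases f <;> cases h <;> cases t <;> simp [pe]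
    · simp [pe, h']

/-- the exchange as a permutation -/
def pp (c : Cp) : Equiv.Perm (Et Col Row Dir Cp) := ⟨pe c, pe c, pe_pe c, pe_pe c⟩

theorem typ_same (c : Cp) (o : Et Col Row Dir Cp → Bool) (f : Bool) :
    typ (sw c o) c f = typ o c (!f) := by
  simp [typ, sw, pe, ta, Bool.and_comm]

theorem typ_ne {c c' : Cp} (h : c' ≠ c) (o : Et Col Row Dir Cp → Bool) (f : Bool) :
    typ (sw c o) c' f = typ o c' f := by
  simp [typ, sw, pe, ta, h]

theorem sw_sw (c : Cp) (o : Et Col Row Dir Cp → Bool) : sw c (sw c o) = o := by
  funext e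
  have h1 : sw c (sw c o) e = xor (xor (o (pe c (pe c e))) (ta c o (pe c e))) (ta c (sw c o) e) :=
    rfl
  rw [h1, pe_pe]
  rcases e with _ | _ | _ | _ | ⟨c', f⟩ | ⟨c', f, h, t⟩ <;> try simp [pe, ta]
  · by_cases h : c' = c
    · subst h
      simp [typ_same]
    · simp [h]
  · by_cases h' : c' = c <;> simp [h']

/-- out-degree at a vertex of a coupler -/
theorem od_br [Fintype Col] [Fintype Row] [Fintype Dir] [Fintype Cp] [DecidableEq Col]
    [DecidableEq Row] [DecidableEq Dir] (S : Sys Col Row Dir Cp) (o : Et Col Row Dir Cp → Bool)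
    (c : Cp) (f h : Bool) :
    od S.E o (.br c f h) = (if xor (o (.mid c f)) h then 1 else 0) +
      ((if o (.out c f h false) then 1 else 0) + (if o (.out c f h true) then 1 else 0)) := by
  unfold od
  rw [Finset.card_filter]
  have hs : ({.mid c f, .out c f h false, .out c f h true} : Finset (Et Col Row Dir Cp)) ⊆
      Finset.univ := Finset.subset_univ _
  rw [← Finset.sum_subset hs]
  · rw [Finset.sum_insert (by simp), Finset.sum_insert (by simp), Finset.sum_singleton]
    congr 1
    · unfold tl Sys.E
      cases o (.mid c f) <;> cases h <;> simp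
    · congr 1
      · unfold tl Sys.E
        cases o (.out c f h false) <;> simp
      · unfold tl Sys.E
        cases o (.out c f h true) <;> simp
  · intro e _ he
    rw [if_neg]
    intro ht
    apply he
    unfold tl Sys.E at ht
    rcases e with _ | _ | _ | _ | ⟨c', f'⟩ | ⟨c', f', h', t'⟩
    · split at ht <;> simp at ht
    · split at ht <;> simp at ht
    · split at ht <;> simp at ht
    · split at ht <;> simp at ht
    · split at ht
      · simp only [Vt.br.injEq] at ht
        simp [ht.1, ht.2.1]
      · simp only [Vt.br.injEq] at ht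
        simp [ht.1, ht.2.1]
    · split at ht
      · simp only [Vt.br.injEq] at ht
        cases t' <;> simp [ht.1, ht.2.1, ht.2.2]
      · simp at ht

/-- the out-degrees elsewhere do not change -/
theorem od_ne [Fintype Col] [Fintype Row] [Fintype Dir] [Fintype Cp] [DecidableEq Col]
    [DecidableEq Row] [DecidableEq Dir] (S : Sys Col Row Dir Cp) (o : Et Col Row Dir Cp → Bool)
    (c : Cp) (v : Vt Col Row Cp) (hv : ∀ f h, v ≠ .br c f h) :
    od S.E (sw c o) v = od S.E o v := by
  unfold od
  rw [Finset.card_filter, Finset.card_filter]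
  rw [← Equiv.sum_comp (pp c) (fun e => if tl S.E o e = v then 1 else 0)]
  refine Finset.sum_congr rfl fun e _ => ?_
  change (if tl S.E (sw c o) e = v then 1 else 0) = if tl S.E o (pe c e) = v then 1 else 0
  congr 1
  rcases e with _ | _ | _ | _ | ⟨c', f⟩ | ⟨c', f, h, t⟩
  · simp [tl, sw, pe, ta]
  · simp [tl, sw, pe, ta]
  · simp [tl, sw, pe, ta]
  · simp [tl, sw, pe, ta]
  · by_cases h : c' = c
    · subst h
      have h1 : tl S.E (sw c' o) (.mid c' f) ≠ v := by
        intro h
        unfold tl Sys.E at h
        split at h
        · exact hv _ _ h.symm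
        · exact hv _ _ h.symm
      have h2 : tl S.E o (pe c' (.mid c' f)) ≠ v := by
        intro h
        simp only [pe, if_pos] at h
        unfold tl Sys.E at h
        split at h
        · exact hv _ _ h.symm
        · exact hv _ _ h.symm
      exact propext ⟨fun h => absurd h h1, fun h => absurd h h2⟩
    · simp [tl, sw, pe, ta, h]
  · by_cases h' : c' = c
    · subst h'
      have e1 : sw c' o (.out c' f h t) = o (.out c' (!f) (xor h t) t) := by simp [sw, pe, ta]
      have e2 : pe c' (.out c' f h t : Et Col Row Dir Cp) = .out c' (!f) (xor h t) t := by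
        simp [pe]
      rw [e2]
      unfold tl
      rw [e1]
      by_cases ho : o (.out c' (!f) (xor h t) t)
      · rw [if_pos ho, if_pos ho]
        exact propext ⟨fun h => absurd h.symm (hv _ _), fun h => absurd h.symm (hv _ _)⟩
      · rw [if_neg ho, if_neg ho]
        have e3 : xor (xor h t) (!f && t) = xor h (f && t) := by
          cases f <;> cases h <;> cases t <;> rfl
        simp only [Sys.E, e3]
    · simp [tl, sw, pe, ta, h']

/-- the sign changes -/
theorem sg_sw [Fintype Col] [Fintype Row] [Fintype Dir] [Fintype Cp] [DecidableEq Col]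
    [DecidableEq Row] [DecidableEq Dir] (o : Et Col Row Dir Cp → Bool)
    (c : Cp) (hc : typ o c false ≠ typ o c true) : sg (sw c o) = - sg o := by
  have hx : ∀ a b : Bool, (if xor a b then (1 : ℤ) else -1) =
      (if a then 1 else -1) * (if b then -1 else 1) := by decide
  unfold sg
  have h1 : ∏ e, (if sw c o e then (1 : ℤ) else -1) =
      ∏ e, ((if o (pp c e) then (1 : ℤ) else -1) * (if ta c o e then -1 else 1)) :=
    Finset.prod_congr rfl fun e _ => hx _ _
  rw [h1, Finset.prod_mul_distrib,
    Equiv.prod_comp (pp c) (fun e => if o e then (1 : ℤ) else -1)]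
  have h2 : ∏ e, (if ta c o e then (-1 : ℤ) else 1) = -1 := by
    have hs : ({.mid c false, .mid c true} : Finset (Et Col Row Dir Cp)) ⊆ Finset.univ :=
      Finset.subset_univ _
    rw [← Finset.prod_subset hs]
    · rw [Finset.prod_insert (by simp), Finset.prod_singleton]
      have e1 : ta c o (.mid c false) = typ o c true := by simp [ta]
      have e2 : ta c o (.mid c true) = typ o c false := by simp [ta]
      rw [e1, e2]
      revert hc
      cases typ o c false <;> cases typ o c true <;> simp
    · intro e _ he
      rw [if_neg]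
      intro ht
      apply he
      rcases e with _ | _ | _ | _ | ⟨c', f⟩ | ⟨c', f, h, t⟩
      · simp [ta] at ht
      · simp [ta] at ht
      · simp [ta] at ht
      · simp [ta] at ht
      · by_cases h : c' = c
        · subst h
          cases f <;> simp
        · simp [ta, h] at ht
      · simp [ta] at ht
  rw [h2]
  ring

/-- the new orientation is balanced -/
theorem bal_sw [Fintype Col] [Fintype Row] [Fintype Dir] [Fintype Cp] [DecidableEq Col]
    [DecidableEq Row] [DecidableEq Dir] (S : Sys Col Row Dir Cp) (o : Et Col Row Dir Cp → Bool)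
    (c : Cp) (hb : ∀ v, od S.E o v = 2) (v : Vt Col Row Cp) : od S.E (sw c o) v = 2 := by
  by_cases hv : ∀ f h, v ≠ .br c f h
  · rw [od_ne S o c v hv]
    exact hb v
  · push Not at hv
    obtain ⟨f, h, rfl⟩ := hv
    have h0 := hb (.br c (!f) false)
    have h1 := hb (.br c (!f) true)
    rw [od_br] at h0 h1 ⊢
    have e1 : ∀ t, sw c o (.out c f h t) = o (.out c (!f) (xor h t) t) := by
      intro t
      simp [sw, pe, ta]
    have e2 : sw c o (.mid c f) = xor (o (.mid c (!f)))
        (!(o (.out c (!f) false true) && o (.out c (!f) true true))) := by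
      simp [sw, pe, ta, typ]
    rw [e1, e1, e2]
    clear e1 e2
    generalize o (.mid c (!f)) = m at *
    have e3 : xor h false = h := by simp
    rw [e3]
    cases h
    · simp only [Bool.false_xor] at *
      generalize o (.out c (!f) false false) = a at *
      generalize o (.out c (!f) false true) = b at *
      generalize o (.out c (!f) true false) = a' at *
      generalize o (.out c (!f) true true) = b' at *
      revert h0 h1
      revert m a b a' b'
      decide
    · simp only [Bool.true_xor, Bool.not_true] at *
      generalize o (.out c (!f) false false) = a at *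
      generalize o (.out c (!f) false true) = b at *
      generalize o (.out c (!f) true false) = a' at *
      generalize o (.out c (!f) true true) = b' at *
      revert h0 h1
      revert m a b a' b'
      decide

open Classical in
/-- a choice of an element -/
noncomputable def pk {α : Type} (T : Finset α) : Option α := if h : T.Nonempty then some h.choose else none

theorem pk_spec {α : Type} {T : Finset α} (h : T.Nonempty) : ∃ c ∈ T, pk T = some c := by
  refine ⟨h.choose, h.choose_spec, ?_⟩
  unfold pk
  rw [dif_pos h]

end B1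

open B1

open Classical in
theorem Z_eq_sum_good {Col Row Dir Cp : Type} [Fintype Col] [Fintype Row] [Fintype Dir]
    [Fintype Cp] [DecidableEq Col] [DecidableEq Row] [DecidableEq Dir] [DecidableEq Cp]
    (S : Sys Col Row Dir Cp) :
    Z S.E = ∑ o : Et Col Row Dir Cp → Bool, if S.Good o then sg o else 0 := by
  unfold Z
  rw [← sub_eq_zero, ← Finset.sum_sub_distrib]
  let bad : (Et Col Row Dir Cp → Bool) → Finset Cp :=
    fun o => Finset.univ.filter fun c => typ o c false ≠ typ o c true
  let P : (Et Col Row Dir Cp → Bool) → Prop := fun o => (∀ v, od S.E o v = 2) ∧ (bad o).Nonempty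
  have hP : ∀ o, ((if ∀ v, od S.E o v = 2 then sg o else 0) - if S.Good o then sg o else 0) =
      if P o then sg o else 0 := by
    intro o
    by_cases h1 : ∀ v, od S.E o v = 2
    · rw [if_pos h1]
      by_cases h2 : ∀ c, typ o c false = typ o c true
      · rw [if_pos (show S.Good o from ⟨h1, h2⟩), if_neg, sub_self]
        rintro ⟨-, c, hc⟩
        exact (Finset.mem_filter.1 hc).2 (h2 c)
      · rw [if_neg (fun h : S.Good o => h2 h.2), if_pos, sub_zero]
        push Not at h2
        obtain ⟨c, hc⟩ := h2
        exact ⟨h1, c, Finset.mem_filter.2 ⟨Finset.mem_univ _, hc⟩⟩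
    · rw [if_neg h1, if_neg (fun h : S.Good o => h1 h.1), if_neg (fun h : P o => h1 h.1), sub_zero]
  rw [Finset.sum_congr rfl fun o _ => hP o, ← Finset.sum_filter]
  have hbad : ∀ o c, bad (sw c o) = bad o := by
    intro o c
    ext c'
    simp only [bad, Finset.mem_filter, Finset.mem_univ, true_and]
    by_cases h : c' = c
    · subst h
      rw [typ_same, typ_same]
      exact ne_comm
    · rw [typ_ne h, typ_ne h]
  refine Finset.sum_involution
    (fun o _ => match pk (bad o) with
      | some c => sw c o
      | none => o) ?_ ?_ ?_ ?_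
  · intro o ho
    obtain ⟨c, hc, hpk⟩ := pk_spec (Finset.mem_filter.1 ho).2.2
    simp only [hpk]
    rw [sg_sw o c (Finset.mem_filter.1 hc).2]
    ring
  · intro o ho _ heq
    obtain ⟨c, hc, hpk⟩ := pk_spec (Finset.mem_filter.1 ho).2.2
    simp only [hpk] at heq
    have h2 := (Finset.mem_filter.1 hc).2
    apply h2
    conv_lhs => rw [← heq]
    rw [typ_same]
    rfl
  · intro o ho
    obtain ⟨c, hc, hpk⟩ := pk_spec (Finset.mem_filter.1 ho).2.2
    simp only [hpk]
    refine Finset.mem_filter.2 ⟨Finset.mem_univ _, bal_sw S o c (Finset.mem_filter.1 ho).2.1, ?_⟩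
    rw [hbad]
    exact (Finset.mem_filter.1 ho).2.2
  · intro o ho
    obtain ⟨c, hc, hpk⟩ := pk_spec (Finset.mem_filter.1 ho).2.2
    simp only [hpk, hbad]
    exact sw_sw c o

end Pool.Agent.W982.AT
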